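import Pool.Agent.H74.TE.Piece

/-!
The bush bound at one scale and one class of angles.
-/

set_option autoImplicit false

open MeasureTheory Set Metric
open scoped ENNReal NNReal

namespace Pool.Agent.H74.TE
open Pool.Agent.Y254 Pool.Agent.H74.TD
open Pool.Agent.TH705.RR (E vb vb_pos Rod sn sn_sq sn_nonneg sn_le_one perp_norm sn_comm)

variable {n : ℕ}

/-- The number of tubes through two distant points. -/
theorem two_points (hn : 1 ≤ n) : ∃ K : ℝ, 1 ≤ K ∧ ∀ (δ : ℝ), 0 < δ → δ < 1 →
    ∀ {ι : Type} [Fintype ι] (a e : ι → E n), (∀ i, ‖e i‖ = 1) →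
    (∀ i j, i ≠ j → δ ≤ ‖e i - e j‖) → ∀ (h : ℝ), 0 < h → h ≤ 1 → ∀ (x y : E n), h ≤ ‖y - x‖ →
    ∀ (J : Finset ι), (∀ j ∈ J, x ∈ tube δ (a j) (e j) ∧ y ∈ tube δ (a j) (e j)) →
    (J.card : ℝ) ≤ K * (1 / h) ^ (n - 1) := by
  obtain ⟨K, hK1, hK⟩ := Pool.Agent.TH705.RR.count (n := n) hn
  refine ⟨K * 2 ^ (n - 1), one_le_mul_of_one_le_of_one_le hK1 (one_le_pow₀ (by norm_num)), ?_⟩
  intro δ hδ hδ1 ι _ a e he hsep h hh hh1 x y hxy J hJ
  set d : ℝ := ‖y - x‖ with hd
  have hd0 : 0 < d := by linarith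
  set w : E n := d⁻¹ • (y - x) with hw
  have hw1 : ‖w‖ = 1 := by
    rw [hw, norm_smul, norm_inv, Real.norm_eq_abs, abs_of_pos hd0, ← hd, inv_mul_cancel₀ hd0.ne']
  have h1 := hK δ hδ hδ1 e he hsep w hw1 J (2 * δ / h) (by
    rw [le_div_iff₀ hh]
    nlinarith) (by
    intro j hj
    obtain ⟨hx, hy⟩ := hJ j hj
    have h2 := tube_diff hx hy
    have h3 : w - (inner ℝ (e j) w) • e j = d⁻¹ • ((y - x) - (inner ℝ (y - x) (e j)) • e j) := by
      rw [hw, inner_smul_right, real_inner_comm, mul_smul, ← smul_sub]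
    rw [sn_comm, ← perp_norm (he j) hw1, h3, norm_smul, norm_inv, Real.norm_eq_abs,
      abs_of_pos hd0, inv_mul_le_iff₀ hd0]
    calc ‖(y - x) - (inner ℝ (y - x) (e j)) • e j‖ ≤ 2 * δ := h2
      _ = h * (2 * δ / h) := by field_simp
      _ ≤ d * (2 * δ / h) := by gcongr)
  refine h1.trans (le_of_eq ?_)
  have h4 : 2 * δ / h / δ = 2 * (1 / h) := by field_simp
  rw [h4, mul_pow]
  ring

theorem bush_bound (hn : 3 ≤ n) :
    ∃ C : ℝ, 1 ≤ C ∧ ∀ (δ : ℝ), 0 < δ → δ < 1 → ∀ {ι : Type} [Fintype ι]
    (a e : ι → E n), (∀ i, ‖e i‖ = 1) → (∀ i j, i ≠ j → δ ≤ ‖e i - e j‖) →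
    ∀ (F G : Set (E n)), MeasurableSet G → G ⊆ F → ∀ (c : ℝ), 0 ≤ c →
    (∀ (x : E n) (r : ℝ), δ ≤ r → r ≤ 32 → volume (F ∩ closedBall x r) ≤ ENNReal.ofReal (c * (r * √r))) →
    ∀ (h : ℝ), 0 < h → h ≤ 1 → δ ≤ 4 * h → ∀ (i : ι) (θ : ℝ), δ ≤ θ → θ ≤ 1 →
    ∀ (J : Finset ι), (∀ j ∈ J, θ ≤ ‖e i - e j‖ ∧ ‖e i - e j‖ ≤ 2 * θ) →
    ∑ j ∈ J, ∫⁻ x, ((tube δ (a i) (e i) ∩ G) ∩ (tube δ (a j) (e j) ∩ G)).indicator 1 x *
        fm volume (tube δ (a j) (e j) ∩ G) (far h) x ≤
      ENNReal.ofReal (C * (c * (h * √(3 * δ + 2 * θ * (4 * h))) * (1 / h) ^ (n - 1))) *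
        volume (tube δ (a i) (e i) ∩ G) := by
  have hn1 : 1 ≤ n := by omega
  obtain ⟨K, hK1, hK⟩ := two_points (n := n) hn1
  refine ⟨K * 272, by linarith, ?_⟩
  intro δ hδ hδ1 ι _ a e he hsep F G hG hGF c hc hF h hh hh1 hδh i θ hθ hθ1 J hJ
  classical
  set T : ι → Set (E n) := fun i => tube δ (a i) (e i) with hT
  have hTm : ∀ i, MeasurableSet (T i) := fun i => tube_meas _ _ _
  set A : ι → Set (E n) := fun i => T i ∩ G with hA
  have hAm : ∀ i, MeasurableSet (A i) := fun i => (hTm i).inter hG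
  have hθ0 : 0 < θ := hδ.trans_le hθ
  set ρ : ℝ := 3 * δ + 2 * θ * (4 * h) with hρ
  have hρδ : δ ≤ ρ := by
    have : 0 ≤ 2 * θ * (4 * h) := by positivity
    linarith
  have hρ16 : ρ ≤ 16 := by
    have : θ * h ≤ 1 := mul_le_one₀ hθ1 hh.le hh1
    rw [hρ]
    nlinarith
  have hρh : ρ ≤ 20 * h := by
    rw [hρ]
    nlinarith [mul_le_mul_of_nonneg_right hθ1 hh.le]
  have hρ0 : 0 < ρ := hδ.trans_le hρδ
  set κ : ℝ := K * (1 / h) ^ (n - 1) with hκ
  have hK0 : 0 ≤ K := by linarith
  have hκ0 : 0 ≤ κ := by positivity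
  set W : ℝ := κ * (c * ((8 * (4 * h) + 12 * ρ) * √ρ)) with hW
  -- the pointwise bound
  have hpt : ∀ x, ∑ j ∈ J, (A i ∩ A j).indicator 1 x * fm volume (A j) (far h) x ≤
      (A i).indicator (fun _ => ENNReal.ofReal W) x := by
    intro x
    by_cases hxi : x ∈ A i
    · rw [indicator_of_mem hxi]
      obtain ⟨U, hUm, hRU, hUv⟩ := rod_growth (F := F) hδ hc hF x (e i) (he i) (L := 4 * h) (ρ := ρ)
        (by positivity) hρδ hρ16
      have e1 : ∀ j, (A i ∩ A j).indicator (1 : E n → ℝ≥0∞) x * fm volume (A j) (far h) x =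
          ∫⁻ y, (A j).indicator 1 x * ((A j).indicator 1 y * (far h).indicator 1 (x, y)) := by
        intro j
        have h1 : (A i ∩ A j).indicator (1 : E n → ℝ≥0∞) x = (A j).indicator 1 x := by
          by_cases hxj : x ∈ A j
          · rw [indicator_of_mem hxj, indicator_of_mem (show x ∈ A i ∩ A j from ⟨hxi, hxj⟩)]
          · rw [indicator_of_notMem hxj, indicator_of_notMem (fun hh => hxj hh.2)]
        rw [h1, fm, lintegral_const_mul]
        exact (measurable_one.indicator (hAm j)).mul
          ((Pool.Agent.H74.TD.far_meas (far_ms h)).comp measurable_prodMk_left)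
      have hmj : ∀ j, Measurable fun y => (A j).indicator (1 : E n → ℝ≥0∞) x *
          ((A j).indicator 1 y * (far h).indicator (1 : E n × E n → ℝ≥0∞) (x, y)) := fun j =>
        ((measurable_one.indicator (hAm j)).mul
          ((Pool.Agent.H74.TD.far_meas (far_ms h)).comp measurable_prodMk_left)).const_mul _
      rw [Finset.sum_congr rfl fun j _ => e1 j, ← lintegral_finsetSum _ fun j _ => hmj j]
      have hy : ∀ y, ∑ j ∈ J, (A j).indicator (1 : E n → ℝ≥0∞) x *
          ((A j).indicator 1 y * (far h).indicator (1 : E n × E n → ℝ≥0∞) (x, y)) ≤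
          (G ∩ U).indicator (fun _ => ENNReal.ofReal κ) y := by
        intro y
        set J' : Finset ι := J.filter (fun j => x ∈ A j ∧ y ∈ A j ∧ (x, y) ∈ far (n := n) h) with hJ'
        have h2 : ∑ j ∈ J, (A j).indicator (1 : E n → ℝ≥0∞) x *
            ((A j).indicator 1 y * (far h).indicator (1 : E n × E n → ℝ≥0∞) (x, y)) ≤
            (J'.card : ℝ≥0∞) := by
          have h3 : (J'.card : ℝ≥0∞) = ∑ j ∈ J, if x ∈ A j ∧ y ∈ A j ∧ (x, y) ∈ far (n := n) h
              then 1 else 0 := by
            rw [hJ', Finset.card_filter]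
            push_cast
            rfl
          rw [h3]
          apply Finset.sum_le_sum
          intro j _
          by_cases hx : x ∈ A j
          · by_cases hy : y ∈ A j
            · by_cases hf : (x, y) ∈ far (n := n) h
              · rw [if_pos ⟨hx, hy, hf⟩, indicator_of_mem hx, indicator_of_mem hy,
                  indicator_of_mem hf]
                simp
              · rw [indicator_of_notMem hf]; simp
            · rw [indicator_of_notMem hy]; simp
          · rw [indicator_of_notMem hx]; simp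
        refine h2.trans ?_
        rcases J'.eq_empty_or_nonempty with h0 | ⟨j, hj⟩
        · rw [h0]; simp
        · obtain ⟨hjJ, hxj, hyj, hf⟩ := Finset.mem_filter.1 hj
          have hmem : y ∈ G ∩ U := by
            refine ⟨hyj.2, hRU ?_⟩
            have h4 := mem_rod (a := x) (e := e i) (a' := a j) (e' := e j) (x := x) (θ := θ)
              (δ := δ) (t := 0) (p := 0) (r := 4 * h) (y := y) ?_ hxj.1 hyj.1 (he j) ?_ ?_ hf.2
              (hJ j hjJ).2 (by positivity)
            · obtain ⟨s, hs1, hs2⟩ := h4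
              refine ⟨inner ℝ (y - x) (e j), ?_, ?_⟩
              · have := abs_real_inner_le_norm (y - x) (e j)
                rw [he j, mul_one] at this
                exact this.trans hf.2
              · have h5 := tube_diff hxj.1 hyj.1
                set u : ℝ := inner ℝ (y - x) (e j) with hu
                have h6 : y - x - u • e i = ((y - x) - u • e j) + u • (e j - e i) := by
                  rw [smul_sub]
                  abel
                have hu1 : |u| ≤ 4 * h := by
                  have := abs_real_inner_le_norm (y - x) (e j)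
                  rw [he j, mul_one] at this
                  exact this.trans hf.2
                rw [h6]
                calc _ ≤ ‖(y - x) - u • e j‖ + ‖u • (e j - e i)‖ := norm_add_le _ _
                  _ ≤ 2 * δ + (4 * h) * (2 * θ) := by
                      refine add_le_add h5 ?_
                      rw [norm_smul, Real.norm_eq_abs, norm_sub_rev]
                      have := (hJ j hjJ).2
                      gcongr
                  _ ≤ ρ := by rw [hρ]; linarith
            · refine ⟨?_, ?_⟩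
              · simp
              · simp [hδ.le]
            · simp
            · simp only [sub_self, abs_zero]
              positivity
          rw [indicator_of_mem hmem, ← ENNReal.ofReal_natCast]
          apply ENNReal.ofReal_le_ofReal
          exact hK δ hδ hδ1 a e he hsep h hh hh1 x y hf.1 J' (fun j hj => by
            obtain ⟨_, hxj, hyj, _⟩ := Finset.mem_filter.1 hj
            exact ⟨hxj.1, hyj.1⟩)
      refine (lintegral_mono hy).trans ?_
      rw [lintegral_indicator_const (hG.inter hUm)]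
      calc ENNReal.ofReal κ * volume (G ∩ U)
          ≤ ENNReal.ofReal κ * ENNReal.ofReal (c * ((8 * (4 * h) + 12 * ρ) * √ρ)) := by
            gcongr
            exact (measure_mono (inter_subset_inter_left _ hGF)).trans hUv
        _ = ENNReal.ofReal W := by rw [← ENNReal.ofReal_mul hκ0]
    · rw [indicator_of_notMem hxi]
      apply le_of_eq
      apply Finset.sum_eq_zero
      intro j _
      rw [indicator_of_notMem (fun hh => hxi hh.1), zero_mul]
  calc ∑ j ∈ J, ∫⁻ x, (A i ∩ A j).indicator 1 x * fm volume (A j) (far h) x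
      = ∫⁻ x, ∑ j ∈ J, (A i ∩ A j).indicator 1 x * fm volume (A j) (far h) x := by
        have hmj : ∀ j, Measurable fun x => (A i ∩ A j).indicator (1 : E n → ℝ≥0∞) x *
            fm volume (A j) (far h) x := fun j => (measurable_one.indicator
          ((hAm i).inter (hAm j))).mul (fm_meas (hAm j) (far_ms h))
        rw [lintegral_finsetSum _ fun j _ => hmj j]
    _ ≤ ∫⁻ x, (A i).indicator (fun _ => ENNReal.ofReal W) x := lintegral_mono hpt
    _ = ENNReal.ofReal W * volume (A i) := lintegral_indicator_const (hAm i) _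
    _ ≤ _ := by
        refine mul_le_mul' (ENNReal.ofReal_le_ofReal ?_) le_rfl
        have hX : (8 * (4 * h) + 12 * ρ) ≤ 272 * h := by linarith
        calc W ≤ κ * (c * ((272 * h) * √ρ)) := by
              rw [hW]
              gcongr
          _ = _ := by
              rw [hκ]
              ring

end Pool.Agent.H74.TE
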