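import Pool.Agent.H74.TE.Level
import Pool.Agent.H74.TD.Choose
import Pool.Graph.R_seed8.Y254.Ind

/-!
The choice of the number of scales.
-/

set_option autoImplicit false

open MeasureTheory Set Metric
open scoped ENNReal NNReal

namespace Pool.Agent.H74.TE
open Pool.Agent.Y254 Pool.Agent.H74.TD
open Pool.Agent.TH705.RR (E vb vb_pos Rod sn sn_sq sn_nonneg sn_le_one)

/-- The bound for one level of the multiplicity, with a small power of `δ`. -/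
theorem level4 {ε : ℝ} (hε : 0 < ε) : ∃ C : ℝ, 1 ≤ C ∧ ∀ (δ : ℝ), 0 < δ → δ < 1 →
    ∀ {ι : Type} [Fintype ι] (a e : ι → E 3), (∀ i, ‖e i‖ = 1) →
    (∀ i j, i ≠ j → δ ≤ ‖e i - e j‖) → (∀ i j, ‖e i - e j‖ ≤ 1) →
    ∀ (F G : Set (E 3)), MeasurableSet G → G ⊆ F → ∀ (A₀ : ℝ), 1 ≤ A₀ →
    (∀ (x : E 3) (r : ℝ), δ ≤ r → r ≤ 32 →
      volume (F ∩ closedBall x r) ≤ ENNReal.ofReal (A₀ * (δ * √δ) * (r * √r))) →
    ∀ (μ : ℝ), 1 ≤ μ →
    (∀ x ∈ G, mult (fun i => tube δ (a i) (e i)) x ≤ ENNReal.ofReal (2 * μ)) →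
    (∀ x ∈ G, ENNReal.ofReal μ ≤ mult (fun i => tube δ (a i) (e i)) x) →
    ∀ (S : ℝ), 0 ≤ S → ∫⁻ x in G, mult (fun i => tube δ (a i) (e i)) x = ENNReal.ofReal S →
    μ * S ^ 2 ≤ C * A₀ * δ ^ (-ε) * ((Fintype.card ι : ℝ) * δ ^ 2) ^ 2 := by
  have hn : 3 ≤ 3 := le_rfl
  have hn1 : 1 ≤ 3 := by omega
  have hCv := Cv_pos 3
  obtain ⟨ε', hε'0, hε'1, hε'ε⟩ : ∃ ε' : ℝ, 0 < ε' ∧ ε' ≤ 1 ∧ ε' ≤ ε :=
    ⟨min ε 1, lt_min (by positivity) one_pos, min_le_right _ _, min_le_left _ _⟩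
  obtain ⟨C, hC1, hPB⟩ := piece_bound (n := 3) hn hε'0 hε'1
  have hPB' : PB3 3 ε' C := hPB
  obtain ⟨CB, hCB1, hBB⟩ := bush_bound (n := 3) hn
  have hBB' : BB3 3 CB := hBB
  obtain ⟨Cη, hCη1, hlog⟩ := log_bound (η := ε / 11) (by positivity)
  obtain ⟨K0, hK01, hcount⟩ := Pool.Agent.TH705.RR.count (n := 3) hn1
  set D1 : ℝ := 4 * (2 * Cv 3) ^ 2 with hD1
  set D2 : ℝ := K0 * (16 * Cv 3) ^ 2 with hD2
  set D3 : ℝ := √(2818048 * (Cη ^ 11 * 2 ^ ε) * (CB * C)) with hD3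
  have hD10 : 0 ≤ D1 := by positivity
  have hD20 : 0 ≤ D2 := by positivity
  have hD30 : 0 ≤ D3 := by positivity
  refine ⟨1 + D1 + D2 + D3, by linarith, ?_⟩
  intro δ hδ hδ1 ι _ a e he hsep hpair F G hG hGF A₀ hA₀ hF μ hμ hmul hmul2 S hS0 hS
  set T : ι → Set (E 3) := fun i => tube δ (a i) (e i) with hT
  set N : ℝ := (Fintype.card ι : ℝ) with hN
  have hN00 : 0 ≤ N := by positivity
  set M : ℝ := N * δ ^ 2 with hM
  have hM0 : 0 ≤ M := by positivity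
  have hδε : 1 ≤ δ ^ (-ε) := by
    apply Real.one_le_rpow_of_pos_of_le_one_of_nonpos hδ hδ1.le
    linarith
  have hbase : 0 ≤ A₀ * δ ^ (-ε) * M ^ 2 := by positivity
  have hfac : M ^ 2 ≤ A₀ * δ ^ (-ε) * M ^ 2 := by
    have h1 : 1 ≤ A₀ * δ ^ (-ε) := one_le_mul_of_one_le_of_one_le hA₀ hδε
    have h2 : 0 ≤ M ^ 2 := by positivity
    nlinarith
  -- it suffices to prove one of the bounds
  have hsuff : ∀ D : ℝ, D ≤ 1 + D1 + D2 + D3 → μ * S ^ 2 ≤ D * (A₀ * δ ^ (-ε) * M ^ 2) →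
      μ * S ^ 2 ≤ (1 + D1 + D2 + D3) * A₀ * δ ^ (-ε) * M ^ 2 := by
    intro D hD h
    calc μ * S ^ 2 ≤ D * (A₀ * δ ^ (-ε) * M ^ 2) := h
      _ ≤ (1 + D1 + D2 + D3) * (A₀ * δ ^ (-ε) * M ^ 2) := by gcongr
      _ = _ := by ring
  rcases hS0.eq_or_lt with hSz | hSpos
  · apply hsuff 0 (by linarith)
    rw [← hSz, zero_pow two_ne_zero]
    simp
  -- the mass
  have hmassE : ENNReal.ofReal S ≤ ENNReal.ofReal (2 * Cv 3 * M) := by
    rw [← hS]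
    exact (setLIntegral_le_lintegral _ _).trans (mass hn1 hδ hδ1 a e he)
  have hmass : S ≤ 2 * Cv 3 * M := (ENNReal.ofReal_le_ofReal_iff (by positivity)).1 hmassE
  have hMpos : 0 < M := by
    by_contra hcon
    have : M = 0 := le_antisymm (not_lt.1 hcon) hM0
    rw [this] at hmass
    linarith
  have hNpos : 0 < N := by
    by_contra hcon
    have : N = 0 := le_antisymm (not_lt.1 hcon) hN00
    rw [hM, this, zero_mul] at hMpos
    exact lt_irrefl _ hMpos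
  rcases lt_or_ge μ 4 with hμ4 | hμ4
  · apply hsuff D1 (by linarith)
    calc μ * S ^ 2 ≤ 4 * (2 * Cv 3 * M) ^ 2 := by gcongr
      _ = D1 * M ^ 2 := by rw [hD1, mul_pow]; ring
      _ ≤ _ := by gcongr
  rcases le_or_gt S (16 * Cv 3 * δ * M) with hsmall | hbig
  · -- few points
    apply hsuff D2 (by linarith)
    have hμN : μ ≤ N := by
      by_contra hcon
      rw [not_le] at hcon
      have hGe : G = ∅ := by
        rw [Set.eq_empty_iff_forall_notMem]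
        intro x hx
        have h1 := (hmul2 x hx).trans (mult_le T x)
        rw [← ENNReal.ofReal_natCast] at h1
        have h2 := (ENNReal.ofReal_le_ofReal_iff hN00).1 h1
        linarith
      rw [hGe] at hS
      simp only [Measure.restrict_empty, lintegral_zero_measure] at hS
      have := (ENNReal.ofReal_eq_zero.1 hS.symm)
      linarith
    have hNcount : N ≤ K0 * (1 / δ) ^ (3 - 1) := by
      obtain ⟨i0⟩ : Nonempty ι := by
        rw [← Fintype.card_pos_iff]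
        have h9 := hNpos
        rw [hN] at h9
        exact_mod_cast h9
      have h1 := hcount δ hδ hδ1 e he hsep (e i0) (he i0) Finset.univ 1 hδ1.le
        (fun j _ => sn_le_one _ _)
      rwa [Finset.card_univ] at h1
    have h3 : (1 / δ) ^ 2 * δ ^ 2 = 1 := by
      rw [← mul_pow, one_div, inv_mul_cancel₀ hδ.ne', one_pow]
    calc μ * S ^ 2 ≤ (K0 * (1 / δ) ^ 2) * (16 * Cv 3 * δ * M) ^ 2 := by
          gcongr
          exact hμN.trans hNcount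
      _ = D2 * M ^ 2 * ((1 / δ) ^ 2 * δ ^ 2) := by
          rw [hD2, mul_pow, mul_pow _ δ]
          ring
      _ = D2 * M ^ 2 := by rw [h3, mul_one]
      _ ≤ _ := by gcongr
  -- the main case
  apply hsuff D3 (by linarith)
  set lam : ℝ := S / M with hlam
  have hlam0 : 0 < lam := by positivity
  have hSlam : S = lam * M := by rw [hlam]; field_simp
  have hlam2 : lam ≤ 2 * Cv 3 := by
    rw [hlam, div_le_iff₀ hMpos]
    exact hmass
  have hlamδ : 16 * Cv 3 * δ < lam := by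
    rw [hlam, lt_div_iff₀ hMpos]
    exact hbig
  have hx0 : 0 < lam / (16 * Cv 3) := by positivity
  have hx1 : lam / (16 * Cv 3) ≤ 1 := by
    rw [div_le_one (by positivity)]
    linarith
  obtain ⟨m, hm1, hm2⟩ := exists_nat_pow_near_of_lt_one hx0 hx1 (y := (1 / 2 : ℝ)) (by norm_num)
    (by norm_num)
  set K : ℕ := m + 1 with hK
  have hKx : (1 / 2 : ℝ) ^ K * (16 * Cv 3) < lam := by
    rwa [lt_div_iff₀ (by positivity)] at hm1
  have hKx2 : lam ≤ 32 * Cv 3 * (1 / 2) ^ K := by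
    rw [div_le_iff₀ (by positivity)] at hm2
    calc lam ≤ (1 / 2) ^ m * (16 * Cv 3) := hm2
      _ = _ := by rw [hK, pow_succ]; ring
  obtain ⟨l0, hl1, hl2⟩ := exists_nat_pow_near (x := 1 / δ) (y := (2 : ℝ)) (by
    rw [le_div_iff₀ hδ]; linarith) (by norm_num)
  set L : ℕ := l0 + 1 with hL
  have hLδ : 1 < 2 ^ L * δ := by
    rwa [div_lt_iff₀ hδ] at hl2
  have hKδ : δ ≤ 4 * (1 / 2) ^ K := by
    have h1 : 16 * Cv 3 * δ < 32 * Cv 3 * (1 / 2) ^ K := hlamδ.trans_le hKx2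
    have h2 : 16 * Cv 3 * δ < 16 * Cv 3 * (2 * (1 / 2) ^ K) := by linarith
    have h3 := lt_of_mul_lt_mul_left h2 (by positivity)
    have h4 : (0 : ℝ) < (1 / 2) ^ K := by positivity
    linarith
  have hSK : 16 * Cv 3 * N * (1 / 2) ^ K * δ ^ 2 ≤ S := by
    rw [hSlam, hM]
    calc 16 * Cv 3 * N * (1 / 2) ^ K * δ ^ 2 =
          ((1 / 2) ^ K * (16 * Cv 3)) * (N * δ ^ 2) := by ring
      _ ≤ lam * (N * δ ^ 2) := by gcongr
  have hA₀0 : 0 ≤ A₀ * (δ * √δ) := by positivity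
  have key := level3 (by linarith) (by linarith) hPB' hBB' hδ hδ1 a e he hsep hpair hG hGF hA₀0 hF
    hμ4 hmul hmul2 (K := K) (L := L) (by omega) hKδ (by omega) hLδ hSpos hS hSK
  have h2K : (2 : ℝ) ^ K ≤ 2 / δ := by
    have h1 : δ ≤ 2 * (1 / 2) ^ K := by
      have h1 : 16 * Cv 3 * δ < 32 * Cv 3 * (1 / 2) ^ K := hlamδ.trans_le hKx2
      have h2 : 16 * Cv 3 * δ < 16 * Cv 3 * (2 * (1 / 2) ^ K) := by linarith
      exact (lt_of_mul_lt_mul_left h2 (by positivity)).le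
    rw [le_div_iff₀ hδ]
    calc (2 : ℝ) ^ K * δ ≤ 2 ^ K * (2 * (1 / 2) ^ K) := by gcongr
      _ = 2 * (2 * (1 / 2)) ^ K := by rw [mul_pow 2 (1 / 2 : ℝ) K]; ring
      _ = 2 := by norm_num
  have h2L : (2 : ℝ) ^ L ≤ 2 / δ := by
    rw [hL, pow_succ]
    calc (2 : ℝ) ^ l0 * 2 ≤ 1 / δ * 2 := by gcongr
      _ = _ := by ring
  have hKlog := hlog K (2 / δ) (by positivity) h2K
  have hLlog := hlog L (2 / δ) (by positivity) h2L
  have hKL : (K : ℝ) ^ 8 * (L : ℝ) ^ 3 ≤ (Cη ^ 11 * 2 ^ ε) * δ ^ (-ε) := by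
    calc (K : ℝ) ^ 8 * (L : ℝ) ^ 3 ≤
          (Cη * (2 / δ) ^ (ε / 11)) ^ 8 * (Cη * (2 / δ) ^ (ε / 11)) ^ 3 := by
          gcongr
      _ = Cη ^ 11 * ((2 / δ) ^ (ε / 11)) ^ 11 := by ring
      _ = Cη ^ 11 * (2 / δ) ^ ε := by
          have e8 : ((2 / δ) ^ (ε / 11)) ^ 11 = (2 / δ) ^ ε := by
            rw [← Real.rpow_natCast ((2 / δ) ^ (ε / 11)) 11, ← Real.rpow_mul (by positivity)]
            congr 1
            push_cast
            ring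
          rw [e8]
      _ = _ := by
          rw [Real.div_rpow (by norm_num) hδ.le, Real.rpow_neg hδ.le]
          ring
  have hδε2 : δ ^ (-ε') ≤ δ ^ (-ε) := by
    apply Real.rpow_le_rpow_of_exponent_ge hδ hδ1.le
    linarith
  have hC0 : 0 ≤ C := by linarith
  have hCB0 : 0 ≤ CB := by linarith
  have hCη0 : 0 ≤ Cη := by linarith
  have hδ8 : (A₀ * (δ * √δ)) ^ 2 * δ ^ 5 * N ^ 4 = A₀ ^ 2 * M ^ 4 := by
    have h1 : √δ ^ 2 = δ := Real.sq_sqrt hδ.le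
    calc (A₀ * (δ * √δ)) ^ 2 * δ ^ 5 * N ^ 4 = A₀ ^ 2 * (δ ^ 2 * √δ ^ 2) * δ ^ 5 * N ^ 4 := by ring
      _ = A₀ ^ 2 * (δ ^ 2 * δ) * δ ^ 5 * N ^ 4 := by rw [h1]
      _ = _ := by rw [hM]; ring
  have hD3sq : D3 ^ 2 = 2818048 * (Cη ^ 11 * 2 ^ ε) * (CB * C) := by
    rw [hD3]
    exact Real.sq_sqrt (by positivity)
  have key2 : (μ * S ^ 2) ^ 2 ≤ (D3 * (A₀ * δ ^ (-ε) * M ^ 2)) ^ 2 := by
    calc (μ * S ^ 2) ^ 2 ≤ 2818048 * ((K : ℝ) ^ 8 * (L : ℝ) ^ 3) *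
          (CB * C * ((A₀ * (δ * √δ)) ^ 2 * δ ^ 5 * δ ^ (-ε'))) * N ^ 4 := key
      _ ≤ 2818048 * ((Cη ^ 11 * 2 ^ ε) * δ ^ (-ε)) *
          (CB * C * ((A₀ * (δ * √δ)) ^ 2 * δ ^ 5 * δ ^ (-ε))) * N ^ 4 := by gcongr
      _ = 2818048 * (Cη ^ 11 * 2 ^ ε) * (CB * C) * (δ ^ (-ε)) ^ 2 *
          ((A₀ * (δ * √δ)) ^ 2 * δ ^ 5 * N ^ 4) := by ring
      _ = 2818048 * (Cη ^ 11 * 2 ^ ε) * (CB * C) * (δ ^ (-ε)) ^ 2 * (A₀ ^ 2 * M ^ 4) := by
          rw [hδ8]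
      _ = D3 ^ 2 * (δ ^ (-ε)) ^ 2 * (A₀ ^ 2 * M ^ 4) := by rw [hD3sq]
      _ = _ := by ring
  exact (pow_le_pow_iff_left₀ (by positivity) (by positivity) two_ne_zero).1 key2

end Pool.Agent.H74.TE
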