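import Pool.Agent.H74.TD.Geo

/-!
Rods in sets of growth `r ^ (3/2)`.
-/

set_option autoImplicit false

open MeasureTheory Set Metric
open scoped ENNReal NNReal

namespace Pool.Agent.H74.TE
open Pool.Agent.Y254 Pool.Agent.H74.TD
open Pool.Agent.TH705.RR (E vb vb_pos Rod sn sn_sq sn_nonneg sn_le_one)

variable {n : ℕ}

/-- Growth in rods. -/
theorem rod_growth {F : Set (E n)} {δ c : ℝ} (hδ : 0 < δ) (hc : 0 ≤ c)
    (hF : ∀ (x : E n) (r : ℝ), δ ≤ r → r ≤ 32 →
      volume (F ∩ closedBall x r) ≤ ENNReal.ofReal (c * (r * √r)))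
    (a e : E n) (he : ‖e‖ = 1) {L ρ : ℝ} (hL : 0 ≤ L) (hρ : δ ≤ ρ) (hρ2 : ρ ≤ 16) :
    ∃ U : Set (E n), MeasurableSet U ∧ Rod a e L ρ ⊆ U ∧
      volume (F ∩ U) ≤ ENNReal.ofReal (c * ((8 * L + 12 * ρ) * √ρ)) := by
  have hρ0 : 0 < ρ := by linarith
  set K : ℕ := ⌈L / ρ⌉₊ with hK
  have hKr : (K : ℝ) < L / ρ + 1 := Nat.ceil_lt_add_one (by positivity)
  refine ⟨⋃ k ∈ Finset.Icc (-(K : ℤ)) K, closedBall (a + (k * ρ : ℝ) • e) (2 * ρ), ?_, ?_, ?_⟩
  · exact Finset.measurableSet_biUnion _ fun k _ => measurableSet_closedBall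
  · rintro x ⟨t, ht, hx⟩
    have hfl := Int.floor_le (t / ρ)
    have hfl2 := Int.lt_floor_add_one (t / ρ)
    set k : ℤ := ⌊t / ρ⌋ with hk
    have h1 : |t - k * ρ| ≤ ρ := by
      rw [abs_le]
      have e1 : t = t / ρ * ρ := by field_simp
      constructor
      · nlinarith
      · nlinarith
    have hk1 : k ≤ K := by
      have h2 : (k : ℝ) ≤ K := by
        have h3 : t / ρ ≤ L / ρ := by
          gcongr
          exact (le_abs_self t).trans ht
        have h4 : L / ρ ≤ K := Nat.le_ceil _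
        linarith
      exact_mod_cast h2
    have hk2 : -(K : ℤ) ≤ k := by
      have h4 : L / ρ ≤ K := Nat.le_ceil _
      have h3 : -(L / ρ) ≤ t / ρ := by
        rw [← neg_div]
        gcongr
        linarith [neg_abs_le t]
      have h5 : (-(K : ℤ) : ℝ) ≤ t / ρ := by
        push_cast
        linarith
      rw [hk, Int.le_floor]
      push_cast
      push_cast at h5
      exact h5
    refine mem_iUnion₂.2 ⟨k, Finset.mem_Icc.2 ⟨hk2, hk1⟩, ?_⟩
    rw [mem_closedBall, dist_eq_norm]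
    have h6 : x - (a + (k * ρ : ℝ) • e) = (x - a - t • e) + (t - k * ρ) • e := by
      rw [sub_smul]
      abel
    rw [h6]
    refine (norm_add_le _ _).trans ?_
    rw [norm_smul, he, mul_one, Real.norm_eq_abs]
    linarith
  · have hsub : F ∩ (⋃ k ∈ Finset.Icc (-(K : ℤ)) K, closedBall (a + (k * ρ : ℝ) • e) (2 * ρ)) ⊆
        ⋃ k ∈ Finset.Icc (-(K : ℤ)) K, F ∩ closedBall (a + (k * ρ : ℝ) • e) (2 * ρ) := by
      rintro x ⟨hxF, hx⟩
      obtain ⟨k, hk, hxk⟩ := mem_iUnion₂.1 hx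
      exact mem_iUnion₂.2 ⟨k, hk, hxF, hxk⟩
    calc volume (F ∩ (⋃ k ∈ Finset.Icc (-(K : ℤ)) K, closedBall (a + (k * ρ : ℝ) • e) (2 * ρ)))
        ≤ ∑ k ∈ Finset.Icc (-(K : ℤ)) K, volume (F ∩ closedBall (a + (k * ρ : ℝ) • e) (2 * ρ)) :=
          (measure_mono hsub).trans (measure_biUnion_finset_le _ _)
      _ ≤ ∑ _k ∈ Finset.Icc (-(K : ℤ)) K, ENNReal.ofReal (c * ((2 * ρ) * √(2 * ρ))) :=
          Finset.sum_le_sum fun k _ => hF _ _ (by linarith) (by linarith)
      _ = ENNReal.ofReal ((2 * K + 1 : ℕ) * (c * ((2 * ρ) * √(2 * ρ)))) := by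
          rw [Finset.sum_const, Int.card_Icc, nsmul_eq_mul,
            ENNReal.ofReal_mul (p := ((2 * K + 1 : ℕ) : ℝ)) (Nat.cast_nonneg _),
            ENNReal.ofReal_natCast]
          congr 2
          omega
      _ ≤ _ := by
          apply ENNReal.ofReal_le_ofReal
          push_cast
          have h7 : (2 * (K : ℝ) + 1) ≤ 2 * (L / ρ) + 3 := by linarith
          have h8 : √(2 * ρ) ≤ 2 * √ρ := by
            rw [Real.sqrt_mul (by norm_num)]
            have : √(2:ℝ) ≤ 2 := by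
              rw [Real.sqrt_le_left (by norm_num)]
              norm_num
            gcongr
          calc (2 * (K : ℝ) + 1) * (c * ((2 * ρ) * √(2 * ρ)))
              ≤ (2 * (L / ρ) + 3) * (c * ((2 * ρ) * (2 * √ρ))) := by gcongr
            _ = _ := by
                field_simp
                ring

end Pool.Agent.H74.TE
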