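import Pool.Agent.H74.TE.Dual
import Pool.Agent.H74.TD.Max
import Pool.Graph.R_seed8.Y244.WR.Max

/-!
The maximal function.
-/

set_option autoImplicit false

open MeasureTheory Set Metric
open scoped ENNReal NNReal

namespace Pool.Agent.H74.TE
open Pool.Agent.Y254 Pool.Agent.H74.TD
open Pool.Agent.TH705.RR (E)

variable {n : ℕ}

theorem weakg (hn : 3 ≤ n) {k : ℕ} {Gr : ℝ → Set (E n) → ℝ → Prop}
    (hlevel : ∀ {ε : ℝ}, 0 < ε → ∃ C : ℝ, 1 ≤ C ∧ LVP n k Gr ε C) {ε : ℝ} (hε : 0 < ε) : ∃ C : ℝ, 1 ≤ C ∧ ∀ (δ : ℝ), 0 < δ → δ < 1 →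
    ∀ (F : Set (E n)), MeasurableSet F → ∀ (A₀ : ℝ), 1 ≤ A₀ →
    Gr δ F A₀ →
    ∀ (f : E n → ℝ≥0∞), AEMeasurable f volume → (∀ x, x ∉ F → f x = 0) → ∀ (l : ℝ), 0 < l →
    ∀ D : Set (sphere (0 : E n) 1), (∀ x ∈ D, ∀ y ∈ D, dist x y ≤ 1) →
    (∀ e ∈ D, ENNReal.ofReal l < kmx δ f (e : E n)) →
    (volume : Measure (E n)).toSphere D * ENNReal.ofReal (l ^ (k + 2)) ≤
      ENNReal.ofReal (C * A₀ * δ ^ (-ε)) * ∫⁻ x, f x ^ (k + 2) := by
  obtain ⟨d, rfl⟩ : ∃ d, n = d + 1 := ⟨n - 1, by omega⟩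
  obtain ⟨C, hC1, hdual⟩ := dualg (n := d + 1) hn hlevel hε
  obtain ⟨C1, hC10, hcap⟩ := Pool.Agent.W131.HM.CAP d
  obtain ⟨κ, hκ, hvol⟩ := Pool.Agent.W131.HM.VOL d
  have hC0 : 0 < C := by linarith
  refine ⟨1 + C1 * (κ ^ (k + 2))⁻¹ * C, by
    have : 0 ≤ C1 * (κ ^ (k + 2))⁻¹ * C := by positivity
    linarith, ?_⟩
  intro δ hδ hδ1 F hFm A₀ hA₀ hF f hf hfF l hl D hD hDl
  obtain ⟨I, hID, hIsep, hIcov⟩ := Pool.Agent.W101.HM.exists_net D hδ
  have hmeas : (volume : Measure (E (d + 1))).toSphere D ≤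
      ENNReal.ofReal ((I.card : ℝ) * (C1 * δ ^ d)) := by
    refine (measure_mono hIcov).trans ((measure_biUnion_finset_le I _).trans ?_)
    refine (Finset.sum_le_sum fun e _ => hcap e δ hδ hδ1.le).trans ?_
    rw [Finset.sum_const, nsmul_eq_mul, ENNReal.ofReal_mul (Nat.cast_nonneg _),
      ENNReal.ofReal_natCast]
  rcases I.eq_empty_or_nonempty with hI | hI
  · rw [hI] at hmeas
    have h0 : (volume : Measure (E (d + 1))).toSphere D = 0 := by
      simpa using hmeas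
    rw [h0, zero_mul]
    exact zero_le
  have hM : 0 < I.card := hI.card_pos
  have hMr : (0 : ℝ) < I.card := by exact_mod_cast hM
  -- the tubes
  have hch : ∀ e : {x // x ∈ I}, ∃ a : E (d + 1), ENNReal.ofReal (l * (κ * δ ^ d)) ≤
      ∫⁻ y in tube δ a ((e : sphere (0 : E (d + 1)) 1) : E (d + 1)), f y := by
    intro e
    have h1 : ENNReal.ofReal l < kmx δ f ((e : sphere (0 : E (d + 1)) 1) : E (d + 1)) :=
      hDl e (hID e e.2)
    rw [kmx, lt_iSup_iff] at h1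
    obtain ⟨a, ha⟩ := h1
    refine ⟨a, ?_⟩
    have he : ‖((e : sphere (0 : E (d + 1)) 1) : E (d + 1))‖ = 1 := by simp
    obtain ⟨hv1, hv2⟩ := hvol a _ δ he hδ hδ1.le
    have hv1' : ENNReal.ofReal (κ * δ ^ d) ≤ volume (tube δ a
        ((e : sphere (0 : E (d + 1)) 1) : E (d + 1))) := hv1
    have hv2' : volume (tube δ a ((e : sphere (0 : E (d + 1)) 1) : E (d + 1))) ≠ ∞ := hv2
    have hv0 : volume (tube δ a ((e : sphere (0 : E (d + 1)) 1) : E (d + 1))) ≠ 0 := by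
      have : 0 < ENNReal.ofReal (κ * δ ^ d) := ENNReal.ofReal_pos.2 (by positivity)
      exact (this.trans_le hv1').ne'
    rw [ENNReal.ofReal_mul hl.le]
    calc ENNReal.ofReal l * ENNReal.ofReal (κ * δ ^ d)
        ≤ ENNReal.ofReal l * volume (tube δ a ((e : sphere (0 : E (d + 1)) 1) : E (d + 1))) := by
          gcongr
      _ ≤ ((volume (tube δ a ((e : sphere (0 : E (d + 1)) 1) : E (d + 1))))⁻¹ *
            ∫⁻ y in tube δ a ((e : sphere (0 : E (d + 1)) 1) : E (d + 1)), f y) *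
            volume (tube δ a ((e : sphere (0 : E (d + 1)) 1) : E (d + 1))) := by
          gcongr
      _ = _ := by
          rw [mul_right_comm, ENNReal.inv_mul_cancel hv0 hv2', one_mul]
  choose a ha using hch
  set T : {x // x ∈ I} → Set (E (d + 1)) := fun i =>
    tube δ (a i) ((i : sphere (0 : E (d + 1)) 1) : E (d + 1)) with hT
  have hTm : ∀ i, MeasurableSet (T i) := fun i => tube_meas _ _ _
  have hd := hdual δ hδ hδ1 a (fun i => ((i : sphere (0 : E (d + 1)) 1) : E (d + 1)))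
    (fun i => by simp)
    (fun i j hij => by
      have h1 := hIsep i i.2 j j.2 (fun hh => hij (Subtype.ext hh))
      rwa [Subtype.dist_eq, dist_eq_norm] at h1)
    (fun i j => by
      have h1 := hD i (hID i i.2) j (hID j j.2)
      rwa [Subtype.dist_eq, dist_eq_norm] at h1) F hFm A₀ hA₀ hF f hf hfF
  rw [Fintype.card_coe] at hd
  have hsum : ∑ i, ∫⁻ y in T i, f y = ∫⁻ y, f y * mult T y := by
    have e1 : ∀ y, f y * mult T y = ∑ i, (T i).indicator f y := by
      intro y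
      unfold mult
      rw [Finset.mul_sum]
      refine Finset.sum_congr rfl fun i _ => ?_
      by_cases hy : y ∈ T i
      · rw [indicator_of_mem hy, indicator_of_mem hy]; simp
      · rw [indicator_of_notMem hy, indicator_of_notMem hy, mul_zero]
    rw [lintegral_congr e1, lintegral_finsetSum' _ fun i _ => hf.indicator (hTm i)]
    exact Finset.sum_congr rfl fun i _ => (lintegral_indicator (hTm i) _).symm
  have hlow : ENNReal.ofReal ((I.card : ℝ) * (l * (κ * δ ^ d))) ≤ ∫⁻ y, f y * mult T y := by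
    rw [← hsum, ENNReal.ofReal_mul (Nat.cast_nonneg _), ENNReal.ofReal_natCast]
    have : ∑ i : {x // x ∈ I}, ENNReal.ofReal (l * (κ * δ ^ d)) =
        (I.card : ℝ≥0∞) * ENNReal.ofReal (l * (κ * δ ^ d)) := by
      rw [Finset.sum_const, nsmul_eq_mul, Finset.card_univ, Fintype.card_coe]
    rw [← this]
    exact Finset.sum_le_sum fun i _ => ha i
  set Φ : ℝ≥0∞ := ∫⁻ x, f x ^ (k + 2) with hΦ
  set M : ℝ := (I.card : ℝ) * δ ^ d with hMdef
  have hM0 : 0 < M := by positivity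
  have hd1 : d + 1 - 1 = d := rfl
  rw [hd1, ← hMdef] at hd
  have h2 : ENNReal.ofReal (M ^ (k + 1)) * ENNReal.ofReal (M * (l * κ) ^ (k + 2)) ≤
      ENNReal.ofReal (M ^ (k + 1)) * (ENNReal.ofReal (C * A₀ * δ ^ (-ε)) * Φ) := by
    calc ENNReal.ofReal (M ^ (k + 1)) * ENNReal.ofReal (M * (l * κ) ^ (k + 2))
        = (ENNReal.ofReal ((I.card : ℝ) * (l * (κ * δ ^ d)))) ^ (k + 2) := by
          rw [← ENNReal.ofReal_mul (by positivity), ← ENNReal.ofReal_pow (by positivity)]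
          congr 1
          rw [hMdef]
          ring
      _ ≤ (∫⁻ y, f y * mult T y) ^ (k + 2) := by gcongr
      _ ≤ _ := hd
      _ = _ := by
          rw [ENNReal.ofReal_mul (by positivity)]
          ring
  have h3 : ENNReal.ofReal (M * (l * κ) ^ (k + 2)) ≤ ENNReal.ofReal (C * A₀ * δ ^ (-ε)) * Φ := by
    have hne : ENNReal.ofReal (M ^ (k + 1)) ≠ 0 := by
      rw [ne_eq, ENNReal.ofReal_eq_zero, not_le]
      positivity
    exact (ENNReal.mul_le_mul_iff_right hne ENNReal.ofReal_ne_top).1 h2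
  calc (volume : Measure (E (d + 1))).toSphere D * ENNReal.ofReal (l ^ (k + 2))
      ≤ ENNReal.ofReal ((I.card : ℝ) * (C1 * δ ^ d)) * ENNReal.ofReal (l ^ (k + 2)) := by gcongr
    _ = ENNReal.ofReal (C1 * (κ ^ (k + 2))⁻¹) * ENNReal.ofReal (M * (l * κ) ^ (k + 2)) := by
        rw [← ENNReal.ofReal_mul (by positivity), ← ENNReal.ofReal_mul (by positivity)]
        congr 1
        rw [hMdef]
        field_simp
        try ring
    _ ≤ ENNReal.ofReal (C1 * (κ ^ (k + 2))⁻¹) * (ENNReal.ofReal (C * A₀ * δ ^ (-ε)) * Φ) := by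
        gcongr
    _ = ENNReal.ofReal (C1 * (κ ^ (k + 2))⁻¹ * C * A₀ * δ ^ (-ε)) * Φ := by
        rw [← mul_assoc, ← ENNReal.ofReal_mul (by positivity)]
        congr 2
        ring
    _ ≤ _ := by
        refine mul_le_mul' (ENNReal.ofReal_le_ofReal ?_) le_rfl
        gcongr
        linarith

end Pool.Agent.H74.TE
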