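import Pool.Agent.H74.TE.Geo

/-!
The bound for one piece of one stem, one scale and one class of angles.
-/

set_option autoImplicit false

open MeasureTheory Set Metric
open scoped ENNReal NNReal

namespace Pool.Agent.H74.TE
open Pool.Agent.H74.TD
open Pool.Agent.Y254
open Pool.Agent.TH705.RR (E vb vb_pos Rod sn sn_sq sn_nonneg sn_le_one)

variable {n : ℕ}

theorem piece_bound (hn : 3 ≤ n) {ε : ℝ} (hε : 0 < ε) (hε1 : ε ≤ 1) :
    ∃ C : ℝ, 1 ≤ C ∧ ∀ (δ : ℝ), 0 < δ → δ < 1 → ∀ {ι : Type} [Fintype ι]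
    (a e : ι → E n), (∀ i, ‖e i‖ = 1) → (∀ i j, i ≠ j → δ ≤ ‖e i - e j‖) →
    (∀ i j, ‖e i - e j‖ ≤ 1) → ∀ (F G : Set (E n)), MeasurableSet G → G ⊆ F → ∀ (c : ℝ), 0 ≤ c →
    (∀ (x : E n) (r : ℝ), δ ≤ r → r ≤ 32 → volume (F ∩ closedBall x r) ≤ ENNReal.ofReal (c * (r * √r))) →
    ∀ (μ : ℝ), 0 < μ →
    (∀ x ∈ G, mult (fun i => tube δ (a i) (e i)) x ≤ ENNReal.ofReal (2 * μ)) →
    ∀ (h : ℝ), 0 < h → h ≤ 1 → δ ≤ 4 * h → ∀ (i : ι) (p : ℤ) (θ : ℝ), δ ≤ θ → θ ≤ 1 →
    ∀ (J : Finset ι), (∀ j ∈ J, θ ≤ ‖e i - e j‖ ∧ ‖e i - e j‖ ≤ 2 * θ) →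
    (∑ j ∈ J, ∫⁻ x, ((tube δ (a i) (e i) ∩ G ∩ piece (a i) (e i) (4 * h) p) ∩
        (tube δ (a j) (e j) ∩ G)).indicator 1 x *
        fm volume (tube δ (a j) (e j) ∩ G) (far h) x) ^ 2 ≤
      ENNReal.ofReal (C * (c * δ ^ n * δ ^ (n - 1) * (h ^ 2 * h ^ (-((n : ℝ) - 2))) *
        (√(3 * δ + 2 * θ * (4 * h)))⁻¹ * δ ^ (-ε) * μ)) *
        volume (tube δ (a i) (e i) ∩ G) := by
  obtain ⟨C1, hC1, hrow⟩ := rowsum hn hε hε1
  have hCv := Cv_pos n
  set C2 : ℝ := 12 * Cv n * C1 with hC2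
  refine ⟨2 * (72960 * Cv n) * C2 + 1, by
    have : 0 ≤ C2 := by positivity
    nlinarith [mul_nonneg (mul_nonneg (by norm_num : (0:ℝ) ≤ 2) (by positivity : 0 ≤ 72960 * Cv n)) this], ?_⟩
  intro δ hδ hδ1 ι _ a e he hsep hpair F G hG hGF c hc hF μ hμ hmul h hh hh1 hδh i p θ hθ hθ1 J hJ
  classical
  have hn1 : 1 ≤ n := by omega
  have hθ0 : 0 < θ := by linarith
  set T : ι → Set (E n) := fun i => tube δ (a i) (e i) with hT
  have hTm : ∀ i, MeasurableSet (T i) := fun i => tube_meas _ _ _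
  set A : ι → Set (E n) := fun i => T i ∩ G with hA
  have hAm : ∀ i, MeasurableSet (A i) := fun i => (hTm i).inter hG
  set B : Set (E n) := A i ∩ piece (a i) (e i) (4 * h) p with hB
  have hBm : MeasurableSet B := (hAm i).inter (piece_ms _ _ _ _)
  set ρ : ℝ := 3 * δ + 2 * θ * (4 * h) with hρ
  have hρδ : δ ≤ ρ := by
    have : 0 ≤ 2 * θ * (4 * h) := by positivity
    linarith
  have hρ16 : ρ ≤ 16 := by
    have : θ * h ≤ 1 := mul_le_one₀ hθ1 hh.le hh1
    rw [hρ]
    nlinarith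
  obtain ⟨U, hUm, hRU, hUv⟩ := rod_growth (F := F) hδ hc hF (a i + ((p : ℝ) * (4 * h)) • e i) (e i)
    (he i) (L := 2 * (4 * h)) (ρ := ρ) (by positivity) hρδ hρ16
  set b : ℝ := 12 * Cv n * δ ^ (n - 1) * min (4 * h) (δ / θ) with hb
  set R : ℝ := Cv n * 12 * δ ^ (n - 1) * (C1 * (h ^ (-((n : ℝ) - 2)) * (θ * h / δ) ^ ε)) with hR
  have hb0 : 0 ≤ b := by positivity
  have hR0 : 0 ≤ R := by positivity
  have hpairvol : ∀ j l', volume (A j ∩ A l') ≤
      ENNReal.ofReal (Cv n * 12 * δ ^ (n - 1) * (δ / max ‖e j - e l'‖ δ)) := by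
    intro j l'
    have hsub : A j ∩ A l' ⊆ T j ∩ T l' := fun x hx => ⟨hx.1.1, hx.2.1⟩
    by_cases hjl : j = l'
    · subst hjl
      refine (measure_mono (hsub.trans inter_subset_left)).trans
        ((vol_tube hn1 (he j) hδ hδ1).trans (ENNReal.ofReal_le_ofReal ?_))
      rw [sub_self, norm_zero, max_eq_right hδ.le, div_self hδ.ne', mul_one]
      have : 0 ≤ Cv n * δ ^ (n - 1) := by positivity
      nlinarith
    · have h1 := hsep j l' hjl
      refine (measure_mono hsub).trans ((vol_inter' hn1 hδ (he j) (he l') (hpair j l')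
        (by linarith)).trans (le_of_eq ?_))
      rw [max_eq_left h1]
      congr 1
      ring
  set Br : ι → ι → Prop := fun j l => ∃ y ∈ A j ∩ A l, (∃ x ∈ B ∩ A j, (x, y) ∈ far h) ∧
    (∃ x ∈ B ∩ A l, (x, y) ∈ far h) with hBr
  have key := brush (m := volume) (A := A) hAm (B := B) (D := G ∩ U) hBm (hG.inter hUm)
    (far := far h) (far_ms h) J Br
    (fun j l => by
      constructor
      · rintro ⟨y, hy, h1, h2⟩
        exact ⟨y, ⟨hy.2, hy.1⟩, h2, h1⟩
      · rintro ⟨y, hy, h1, h2⟩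
        exact ⟨y, ⟨hy.2, hy.1⟩, h2, h1⟩)
    (fun j hj x hx y hy hxy => by
      refine ⟨hy.2, hRU ?_⟩
      exact mem_rod (a := a i) (e := e i) (a' := a j) (e' := e j) (x := x) (θ := θ) hx.1.1.1 hx.2.1 hy.1
        (he j) rfl (piece_near (by positivity) hx.1.2) hxy.2 (hJ j hj).2 (by positivity))
    (fun j _ l _ y hy h1 h2 => ⟨y, hy, h1, h2⟩)
    (b := ENNReal.ofReal b) (R := ENNReal.ofReal R)
    (fun j hj => by
      rw [hb]
      rcases min_choice (4 * h) (δ / θ) with hm | hm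
      · rw [hm]
        have hs : B ∩ A j ⊆ T i ∩ piece (a i) (e i) (4 * h) p := fun x hx => ⟨hx.1.1.1, hx.1.2⟩
        refine (measure_mono hs).trans ((vol_piece hn1 (he i) hδ hδh p).trans ?_)
        apply ENNReal.ofReal_le_ofReal
        have : 0 ≤ Cv n * h * δ ^ (n - 1) := by positivity
        nlinarith
      · rw [hm]
        have hs : B ∩ A j ⊆ A i ∩ A j := fun x hx => ⟨hx.1.1, hx.2⟩
        refine (measure_mono hs).trans ((hpairvol i j).trans (ENNReal.ofReal_le_ofReal ?_))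
        have h2 : δ / max ‖e i - e j‖ δ ≤ δ / θ := by
          gcongr
          exact (hJ j hj).1.trans (le_max_left _ _)
        calc Cv n * 12 * δ ^ (n - 1) * (δ / max ‖e i - e j‖ δ)
            ≤ Cv n * 12 * δ ^ (n - 1) * (δ / θ) := by gcongr
          _ = _ := by ring)
    (fun j hj => by
      have hij : 0 < ‖e i - e j‖ := by
        have := (hJ j hj).1
        linarith
      have hsn : 0 < sn (e j) (e i) := by
        have h1 := sn_ge (he j) (he i) (hpair j i)
        rw [norm_sub_rev] at h1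
        linarith
      set J' : Finset ι := J.filter (fun l' => Br j l') with hJ'
      have h1 := hrow δ hδ hδ1 e he hsep (e j) (dirn (e j) (e i)) (he j)
        (dirn_norm (he j) (he i) hsn) (dirn_inner (he j)) J' θ h hθ hh hh1 (by
          intro l' hl'
          obtain ⟨hl'J, hB'⟩ := Finset.mem_filter.1 hl'
          constructor
          · have h2 : e j - e l' = (e i - e l') - (e i - e j) := by abel
            rw [h2]
            refine (norm_sub_le _ _).trans ?_
            have h3 := (hJ j hj).2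
            have h4 := (hJ l' hl'J).2
            linarith
          · obtain ⟨y, hy, ⟨x, hx, hxy⟩, ⟨x'', hx'', hxy''⟩⟩ := hB'
            exact coplanar hδ (he i) (he j) (he l') hsn ⟨hx.1.1.1, hx.2.1⟩ ⟨hx''.1.1.1, hx''.2.1⟩
              ⟨hy.1.1, hy.2.1⟩ hxy''.1)
      rw [← Finset.sum_filter]
      calc ∑ l' ∈ J', volume (A j ∩ A l')
          ≤ ∑ l' ∈ J', ENNReal.ofReal (Cv n * 12 * δ ^ (n - 1) * (δ / max ‖e j - e l'‖ δ)) :=
            Finset.sum_le_sum fun l' _ => hpairvol j l'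
        _ = ENNReal.ofReal (Cv n * 12 * δ ^ (n - 1) * ∑ l' ∈ J', (δ / max ‖e j - e l'‖ δ)) := by
            rw [Finset.mul_sum, ENNReal.ofReal_sum_of_nonneg]
            intro l' _
            positivity
        _ ≤ _ := by
            apply ENNReal.ofReal_le_ofReal
            rw [hR]
            gcongr)
  refine key.trans ?_
  have hρ0 : 0 < ρ := hδ.trans_le hρδ
  have hDv : volume (G ∩ U) ≤ ENNReal.ofReal (c * ((8 * (2 * (4 * h)) + 12 * ρ) * √ρ)) :=
    (measure_mono (inter_subset_inter_left _ hGF)).trans hUv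
  -- the mass of the intersections
  have hmass : ∑ j ∈ J, volume (B ∩ A j) ≤ ENNReal.ofReal (2 * μ) * volume (A i) := by
    have hmA : ∀ x ∈ G, mult A x = mult T x := by
      intro x hx
      unfold mult
      refine Finset.sum_congr rfl fun i _ => ?_
      by_cases h1 : x ∈ T i
      · rw [indicator_of_mem h1, indicator_of_mem (show x ∈ A i from ⟨h1, hx⟩)]
      · rw [indicator_of_notMem h1, indicator_of_notMem (show x ∉ A i from fun hh => h1 hh.1)]
    calc ∑ j ∈ J, volume (B ∩ A j) ≤ ∑ j, volume (B ∩ A j) :=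
          Finset.sum_le_sum_of_subset (Finset.subset_univ _)
      _ = ∑ j, ∫⁻ x in B, (A j).indicator 1 x := by
          refine Finset.sum_congr rfl fun j _ => ?_
          rw [lintegral_indicator_one (hAm j), Measure.restrict_apply (hAm j), inter_comm]
      _ = ∫⁻ x in B, mult A x := by
          unfold mult
          rw [lintegral_finsetSum _ fun j _ => measurable_one.indicator (hAm j)]
      _ ≤ ∫⁻ _x in B, ENNReal.ofReal (2 * μ) := by
          apply setLIntegral_mono' hBm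
          intro x hx
          rw [hmA x hx.1.2]
          exact hmul x hx.1.2
      _ = ENNReal.ofReal (2 * μ) * volume B := by rw [setLIntegral_const]
      _ ≤ _ := by
          gcongr
          exact inter_subset_left
  calc volume (G ∩ U) * (ENNReal.ofReal R * (ENNReal.ofReal b * ∑ j ∈ J, volume (B ∩ A j)))
      ≤ ENNReal.ofReal (c * ((8 * (2 * (4 * h)) + 12 * ρ) * √ρ)) * (ENNReal.ofReal R *
        (ENNReal.ofReal b * (ENNReal.ofReal (2 * μ) * volume (A i)))) := by gcongr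
    _ = ENNReal.ofReal ((c * ((8 * (2 * (4 * h)) + 12 * ρ) * √ρ)) * (R * (b * (2 * μ)))) *
        volume (A i) := by
        rw [ENNReal.ofReal_mul (p := c * ((8 * (2 * (4 * h)) + 12 * ρ) * √ρ)) (by positivity),
          ENNReal.ofReal_mul hR0, ENNReal.ofReal_mul hb0]
        ring
    _ ≤ _ := by
        refine mul_le_mul' (ENNReal.ofReal_le_ofReal ?_) le_rfl
        -- the arithmetic
        have hmin0 : 0 ≤ min (4 * h) (δ / θ) := by positivity
        have hρh : ρ ≤ 20 * h := by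
          rw [hρ]
          nlinarith [mul_le_mul_of_nonneg_right hθ1 hh.le]
        have hρm : ρ * min (4 * h) (δ / θ) ≤ 20 * (δ * h) := by
          have h1 : min (4 * h) (δ / θ) ≤ 4 * h := min_le_left _ _
          have h2 : min (4 * h) (δ / θ) ≤ δ / θ := min_le_right _ _
          have h3 : θ * min (4 * h) (δ / θ) ≤ δ := by
            calc θ * min (4 * h) (δ / θ) ≤ θ * (δ / θ) := by gcongr
              _ = δ := by field_simp
          rw [hρ]
          calc (3 * δ + 2 * θ * (4 * h)) * min (4 * h) (δ / θ)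
              = 3 * δ * min (4 * h) (δ / θ) + 8 * h * (θ * min (4 * h) (δ / θ)) := by ring
            _ ≤ 3 * δ * (4 * h) + 8 * h * δ := by gcongr
            _ = _ := by ring
        have hsρ : 0 < √ρ := Real.sqrt_pos.2 hρ0
        have hρm2 : √ρ * min (4 * h) (δ / θ) ≤ 20 * (δ * h) * (√ρ)⁻¹ := by
          rw [← div_eq_mul_inv, le_div_iff₀ hsρ]
          calc √ρ * min (4 * h) (δ / θ) * √ρ = (√ρ * √ρ) * min (4 * h) (δ / θ) := by ring
            _ = ρ * min (4 * h) (δ / θ) := by rw [Real.mul_self_sqrt hρ0.le]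
            _ ≤ _ := hρm
        have hX : (8 * (2 * (4 * h)) + 12 * ρ) ≤ 304 * h := by linarith
        have hε' : (θ * h / δ) ^ ε ≤ δ ^ (-ε) := by
          rw [Real.rpow_neg hδ.le, ← Real.inv_rpow hδ.le]
          apply Real.rpow_le_rpow (by positivity) _ hε.le
          rw [div_eq_mul_inv]
          have : θ * h ≤ 1 := mul_le_one₀ hθ1 hh.le hh1
          have h2 : 0 < δ⁻¹ := by positivity
          nlinarith
        have hHn : 0 ≤ h ^ (-((n : ℝ) - 2)) := by positivity
        calc (c * ((8 * (2 * (4 * h)) + 12 * ρ) * √ρ)) * (R * (b * (2 * μ)))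
            ≤ (c * ((304 * h) * √ρ)) * (R * (b * (2 * μ))) := by gcongr
          _ = (c * (304 * h)) * (R * ((12 * Cv n * δ ^ (n - 1)) * (2 * μ))) *
              (√ρ * min (4 * h) (δ / θ)) := by
              rw [hb]
              ring
          _ ≤ (c * (304 * h)) * (R * ((12 * Cv n * δ ^ (n - 1)) * (2 * μ))) *
              (20 * (δ * h) * (√ρ)⁻¹) := by
              gcongr
          _ ≤ (c * (304 * h)) * ((Cv n * 12 * δ ^ (n - 1) * (C1 * (h ^ (-((n : ℝ) - 2)) *
                δ ^ (-ε)))) * ((12 * Cv n * δ ^ (n - 1)) * (2 * μ))) *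
              (20 * (δ * h) * (√ρ)⁻¹) := by
              rw [hR]
              gcongr
          _ = (2 * (72960 * Cv n) * C2) * (c * (δ ^ (n - 1) * δ) * δ ^ (n - 1) *
                (h ^ 2 * h ^ (-((n : ℝ) - 2))) * (√ρ)⁻¹ * δ ^ (-ε) * μ) := by
              rw [hC2]
              ring
          _ ≤ (2 * (72960 * Cv n) * C2 + 1) * (c * (δ ^ (n - 1) * δ) * δ ^ (n - 1) *
                (h ^ 2 * h ^ (-((n : ℝ) - 2))) * (√ρ)⁻¹ * δ ^ (-ε) * μ) := by
              gcongr
              linarith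
          _ = _ := by
              have : δ ^ (n - 1) * δ = δ ^ n := by
                rw [← pow_succ]
                congr 1
                omega
              rw [this]

end Pool.Agent.H74.TE
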