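import Pool.Agent.H74.TE.Max

/-!
The strong type estimate.
-/

set_option autoImplicit false

open MeasureTheory Set Metric
open scoped ENNReal NNReal

namespace Pool.Agent.H74.TE
open Pool.Agent.Y254 Pool.Agent.H74.TD
open Pool.Agent.TH705.RR (E)

variable {n : ℕ}

theorem strongg (hn : 3 ≤ n) {k : ℕ} {Gr : ℝ → Set (E n) → ℝ → Prop}
    (hlevel : ∀ {ε : ℝ}, 0 < ε → ∃ C : ℝ, 1 ≤ C ∧ LVP n k Gr ε C) {ε : ℝ} (hε : 0 < ε) : ∃ C : ℝ, 1 ≤ C ∧ ∀ (δ : ℝ), 0 < δ → δ < 1 →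
    ∀ (F : Set (E n)), MeasurableSet F → ∀ (A₀ : ℝ), 1 ≤ A₀ →
    Gr δ F A₀ →
    ∀ (f : E n → ℝ≥0∞), AEMeasurable f volume → (∀ x, x ∉ F → f x = 0) →
    ∫⁻ e : sphere (0 : E n) 1, kmx δ f (e : E n) ^ (k + 2)
        ∂((volume : Measure (E n)).toSphere) ≤
      ENNReal.ofReal (C * A₀ * δ ^ (-ε)) * ∫⁻ x, f x ^ (k + 2) := by
  obtain ⟨d, rfl⟩ : ∃ d, n = d + 1 := ⟨n - 1, by omega⟩
  obtain ⟨C, hC1, hweak⟩ := weakg (n := d + 1) hn hlevel (half_pos hε)
  obtain ⟨κ, hκ, hvol⟩ := Pool.Agent.W131.HM.VOL d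
  have hd2 : 2 ≤ d := by omega
  have hdr : (2 : ℝ) ≤ d := by exact_mod_cast hd2
  have hd0 : (0 : ℝ) < d := by linarith
  set σ : Measure (sphere (0 : E (d + 1)) 1) := (volume : Measure (E (d + 1))).toSphere with hσ
  have hC0 : 0 < C := by linarith
  have hσfin : σ univ ≠ ∞ := by
    have h1 : IsFiniteMeasure σ := by rw [hσ]; infer_instance
    exact measure_ne_top σ univ
  -- a finite cover of the sphere
  obtain ⟨t, -, htf, htc⟩ := (isCompact_univ (X := sphere (0 : E (d + 1)) 1)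
    ).finite_cover_balls (e := 1 / 2) (by norm_num)
  obtain ⟨B, hB⟩ : ∃ B : Finset (sphere (0 : E (d + 1)) 1), B = htf.toFinset := ⟨_, rfl⟩
  obtain ⟨m0, hm0⟩ : ∃ m0 : ℝ, m0 = (B.card : ℝ) := ⟨_, rfl⟩
  have hm00 : 0 ≤ m0 := by rw [hm0]; exact Nat.cast_nonneg _
  set η : ℝ := ε / (2 * d) with hη
  have hη0 : 0 < η := by positivity
  obtain ⟨Cη, hCη1, hlog⟩ := log_bound hη0
  have hCη0 : 0 < Cη := by linarith
  set X0 : ℝ := 2 * (1 + 1 / κ) with hX0
  have hX00 : 0 < X0 := by positivity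
  set D : ℝ := (σ univ).toReal + (Cη * X0 ^ η) * (2 ^ (k + 2) * m0 * C) with hD
  have hD0 : 0 ≤ D := by
    have : 0 ≤ (σ univ).toReal := ENNReal.toReal_nonneg
    positivity
  refine ⟨1 + D, by linarith, ?_⟩
  intro δ hδ hδ1 F hFm A₀ hA₀ hF f hf hfF
  have hδε : 1 ≤ δ ^ (-ε) := by
    apply Real.one_le_rpow_of_pos_of_le_one_of_nonpos hδ hδ1.le
    linarith
  set Φ : ℝ≥0∞ := ∫⁻ x, f x ^ (k + 2) with hΦ
  have hconst : 0 < (1 + D) * A₀ * δ ^ (-ε) := by positivity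
  rcases eq_or_ne Φ ∞ with hΦt | hΦt
  · rw [hΦt, ENNReal.mul_top (ENNReal.ofReal_pos.2 hconst).ne']
    exact le_top
  -- the sup bound
  have hvolT : ∀ (e : sphere (0 : E (d + 1)) 1) (a : E (d + 1)),
      ENNReal.ofReal (κ * δ ^ d) ≤ volume (tube δ a (e : E (d + 1))) ∧
      volume (tube δ a (e : E (d + 1))) ≠ ∞ := by
    intro e a
    exact hvol a _ δ (by simp) hδ hδ1.le
  have hsup : ∀ e : sphere (0 : E (d + 1)) 1, kmx δ f (e : E (d + 1)) ^ (k + 2) ≤
      (ENNReal.ofReal (κ * δ ^ d))⁻¹ * Φ := by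
    intro e
    have h1 : ∀ a : E (d + 1), ((volume (tube δ a (e : E (d + 1))))⁻¹ *
        ∫⁻ y in tube δ a (e : E (d + 1)), f y) ^ (k + 2) ≤ (ENNReal.ofReal (κ * δ ^ d))⁻¹ * Φ := by
      intro a
      obtain ⟨hv1, hv2⟩ := hvolT e a
      set V := volume (tube δ a (e : E (d + 1))) with hV
      have hV0 : V ≠ 0 := by
        have : 0 < ENNReal.ofReal (κ * δ ^ d) := ENNReal.ofReal_pos.2 (by positivity)
        exact (this.trans_le hv1).ne'
      have h4 := Pool.Agent.H74.Kak.pow_lintegral_le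
        (volume.restrict (tube δ a (e : E (d + 1)))) hf.restrict k
      rw [Measure.restrict_apply_univ, ← hV] at h4
      calc (V⁻¹ * ∫⁻ y in tube δ a (e : E (d + 1)), f y) ^ (k + 2)
          = V⁻¹ ^ (k + 2) * (∫⁻ y in tube δ a (e : E (d + 1)), f y) ^ (k + 2) := mul_pow _ _ _
        _ ≤ V⁻¹ ^ (k + 2) * (V ^ (k + 1) * ∫⁻ y in tube δ a (e : E (d + 1)), f y ^ (k + 2)) := by
            gcongr
        _ = V⁻¹ * (V⁻¹ * V) ^ (k + 1) * ∫⁻ y in tube δ a (e : E (d + 1)), f y ^ (k + 2) := by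
            rw [pow_succ V⁻¹ (k + 1), mul_pow]
            ring
        _ ≤ (ENNReal.ofReal (κ * δ ^ d))⁻¹ * Φ := by
            rw [ENNReal.inv_mul_cancel hV0 hv2, one_pow, mul_one]
            gcongr
            exact setLIntegral_le_lintegral _ _
    unfold kmx
    by_contra hcon
    rw [not_le] at hcon
    -- the power of the supremum
    have h2 : (⨆ a : E (d + 1), (volume (tube δ a (e : E (d + 1))))⁻¹ *
        ∫⁻ y in tube δ a (e : E (d + 1)), f y) ≤
        ((ENNReal.ofReal (κ * δ ^ d))⁻¹ * Φ) ^ (1 / ((k + 2 : ℕ) : ℝ)) := by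
      refine iSup_le fun a => ?_
      have h3 := ENNReal.rpow_le_rpow (h1 a) (z := 1 / ((k + 2 : ℕ) : ℝ)) (by positivity)
      rwa [← ENNReal.rpow_natCast, ← ENNReal.rpow_mul, mul_one_div_cancel (by positivity),
        ENNReal.rpow_one] at h3
    have h4 : (⨆ a : E (d + 1), (volume (tube δ a (e : E (d + 1))))⁻¹ *
        ∫⁻ y in tube δ a (e : E (d + 1)), f y) ^ (k + 2) ≤
        (ENNReal.ofReal (κ * δ ^ d))⁻¹ * Φ := by
      calc _ ≤ (((ENNReal.ofReal (κ * δ ^ d))⁻¹ * Φ) ^ (1 / ((k + 2 : ℕ) : ℝ))) ^ (k + 2) := by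
            gcongr
        _ = _ := by
            rw [← ENNReal.rpow_natCast, ← ENNReal.rpow_mul, one_div_mul_cancel (by positivity),
              ENNReal.rpow_one]
    exact absurd hcon (not_lt.2 h4)
  rcases eq_or_ne Φ 0 with hΦ0 | hΦ0
  · have h1 : ∀ e : sphere (0 : E (d + 1)) 1, kmx δ f (e : E (d + 1)) ^ (k + 2) = 0 := by
      intro e
      have := hsup e
      rw [hΦ0, mul_zero] at this
      exact nonpos_iff_eq_zero.1 this
    rw [lintegral_congr h1]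
    simp
  -- the scale of `f`
  set P : ℝ := Φ.toReal with hP
  have hP0 : 0 < P := ENNReal.toReal_pos hΦ0 hΦt
  have hPe : Φ = ENNReal.ofReal P := (ENNReal.ofReal_toReal hΦt).symm
  set φ : ℝ := P ^ (1 / ((k + 2 : ℕ) : ℝ)) with hφ
  have hφ0 : 0 < φ := by positivity
  have hφP : φ ^ (k + 2) = P := by
    rw [hφ, one_div]
    exact Real.rpow_inv_natCast_pow hP0.le (by omega)
  -- the number of levels
  have hX : 1 ≤ (1 + 1 / κ) * (1 / δ) ^ d := by
    have h1 : (1 : ℝ) ≤ 1 / δ := by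
      rw [le_div_iff₀ hδ]; linarith
    have h2 : (1 : ℝ) ≤ (1 / δ) ^ d := one_le_pow₀ h1
    have h3 : 0 < 1 / κ := by positivity
    nlinarith
  obtain ⟨J0, hJ0, hJ1⟩ := exists_nat_pow_near hX (by norm_num : (1 : ℝ) < 2)
  set J := J0 + 1 with hJ
  have hbig : ∀ e : sphere (0 : E (d + 1)) 1, kmx δ f (e : E (d + 1)) ≤ ENNReal.ofReal (2 ^ J * φ) := by
    intro e
    have h1 : kmx δ f (e : E (d + 1)) ^ (k + 2) ≤ (ENNReal.ofReal (2 ^ J * φ)) ^ (k + 2) := by
      refine (hsup e).trans ?_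
      rw [hPe, ← ENNReal.ofReal_inv_of_pos (by positivity), ← ENNReal.ofReal_mul (by positivity),
        ← ENNReal.ofReal_pow (by positivity)]
      apply ENNReal.ofReal_le_ofReal
      rw [mul_pow, hφP]
      gcongr
      calc (κ * δ ^ d)⁻¹ = (1 / κ) * (1 / δ) ^ d := by
            rw [mul_inv, one_div, one_div, inv_pow]
        _ ≤ (1 + 1 / κ) * (1 / δ) ^ d := by
            gcongr
            linarith
        _ ≤ 2 ^ J := hJ1.le
        _ ≤ (2 ^ J) ^ (k + 2) := by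
            apply le_self_pow₀ _ (by omega)
            exact one_le_pow₀ (by norm_num)
    exact (ENNReal.pow_le_pow_left_iff (by omega)).1 h1
  -- the level sets
  set s : ℕ → Set (sphere (0 : E (d + 1)) 1) := fun j =>
    {e | ENNReal.ofReal (2 ^ j * φ) < kmx δ f (e : E (d + 1))} with hs
  have hsm : ∀ j, σ (s j) * ENNReal.ofReal ((2 ^ j) ^ (k + 2)) ≤
      ENNReal.ofReal (m0 * (C * A₀ * δ ^ (-(ε / 2)))) := by
    intro j
    have hcovs : s j ⊆ ⋃ y ∈ B, s j ∩ ball y (1 / 2) := by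
      intro e he
      obtain ⟨y, hy, hey⟩ := mem_iUnion₂.1 (htc (mem_univ e))
      exact mem_iUnion₂.2 ⟨y, by rw [hB]; exact htf.mem_toFinset.2 hy, he, hey⟩
    have h1 : ∀ y ∈ B, σ (s j ∩ ball y (1 / 2)) * ENNReal.ofReal ((2 ^ j * φ) ^ (k + 2)) ≤
        ENNReal.ofReal (C * A₀ * δ ^ (-(ε / 2))) * Φ := by
      intro y _
      refine hweak δ hδ hδ1 F hFm A₀ hA₀ hF f hf hfF (2 ^ j * φ) (by positivity)
        (s j ∩ ball y (1 / 2)) ?_ (fun e he => he.1)
      intro e he e' he'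
      have h2 := mem_ball.1 he.2
      have h3 := mem_ball.1 he'.2
      calc dist e e' ≤ dist e y + dist e' y := dist_triangle_right _ _ _
        _ ≤ 1 := by linarith
    have h2 : σ (s j) * ENNReal.ofReal ((2 ^ j * φ) ^ (k + 2)) ≤
        ENNReal.ofReal (m0 * (C * A₀ * δ ^ (-(ε / 2)))) * Φ := by
      calc σ (s j) * ENNReal.ofReal ((2 ^ j * φ) ^ (k + 2))
          ≤ (∑ y ∈ B, σ (s j ∩ ball y (1 / 2))) * ENNReal.ofReal ((2 ^ j * φ) ^ (k + 2)) := by
            gcongr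
            exact (measure_mono hcovs).trans (measure_biUnion_finset_le _ _)
        _ = ∑ y ∈ B, σ (s j ∩ ball y (1 / 2)) * ENNReal.ofReal ((2 ^ j * φ) ^ (k + 2)) := by
            rw [Finset.sum_mul]
        _ ≤ ∑ _y ∈ B, ENNReal.ofReal (C * A₀ * δ ^ (-(ε / 2))) * Φ := Finset.sum_le_sum h1
        _ = _ := by
            rw [Finset.sum_const, nsmul_eq_mul, ENNReal.ofReal_mul hm00, hm0,
              ENNReal.ofReal_natCast]
            ring
    have h3 : Φ * (σ (s j) * ENNReal.ofReal ((2 ^ j) ^ (k + 2))) ≤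
        Φ * ENNReal.ofReal (m0 * (C * A₀ * δ ^ (-(ε / 2)))) := by
      calc Φ * (σ (s j) * ENNReal.ofReal ((2 ^ j) ^ (k + 2)))
          = σ (s j) * ENNReal.ofReal ((2 ^ j * φ) ^ (k + 2)) := by
            rw [mul_pow (2 ^ j) φ, hφP, ENNReal.ofReal_mul (by positivity), hPe]
            ring
        _ ≤ _ := h2
        _ = _ := by ring
    exact (ENNReal.mul_le_mul_iff_right hΦ0 hΦt).1 h3
  -- the pointwise bound
  set g : sphere (0 : E (d + 1)) 1 → ℝ≥0∞ := fun e => Φ + ∑ j ∈ Finset.range J,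
    (toMeasurable σ (s j)).indicator (fun _ => ENNReal.ofReal ((2 ^ (j + 1)) ^ (k + 2)) * Φ) e with hg
  have hpt : ∀ e : sphere (0 : E (d + 1)) 1, kmx δ f (e : E (d + 1)) ^ (k + 2) ≤ g e := by
    intro e
    rcases le_or_gt (kmx δ f (e : E (d + 1))) (ENNReal.ofReal φ) with hle | hgt
    · refine le_trans ?_ le_self_add
      calc kmx δ f (e : E (d + 1)) ^ (k + 2) ≤ ENNReal.ofReal φ ^ (k + 2) := by gcongr
        _ = Φ := by rw [← ENNReal.ofReal_pow hφ0.le, hφP, hPe]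
    · refine le_trans ?_ le_add_self
      classical
      have hex : ∃ j : ℕ, kmx δ f (e : E (d + 1)) ≤ ENNReal.ofReal (2 ^ j * φ) := ⟨J, hbig e⟩
      set j1 := Nat.find hex with hj1
      have h1 : kmx δ f (e : E (d + 1)) ≤ ENNReal.ofReal (2 ^ j1 * φ) := Nat.find_spec hex
      have hj1J : j1 ≤ J := Nat.find_min' hex (hbig e)
      have hj1pos : 0 < j1 := by
        rcases Nat.eq_zero_or_pos j1 with h0 | h0
        · rw [h0] at h1
          simp only [pow_zero, one_mul] at h1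
          exact absurd hgt (not_lt.2 h1)
        · exact h0
      have h2 := Nat.find_min hex (m := j1 - 1) (by omega)
      rw [not_le] at h2
      have hmem : e ∈ s (j1 - 1) := h2
      refine le_trans ?_ (Finset.single_le_sum (f := fun j => (toMeasurable σ (s j)).indicator
        (fun _ => ENNReal.ofReal ((2 ^ (j + 1)) ^ (k + 2)) * Φ) e) (fun _ _ => zero_le)
        (Finset.mem_range.2 (show j1 - 1 < J by omega)))
      rw [indicator_of_mem (subset_toMeasurable _ _ hmem), Nat.sub_add_cancel hj1pos]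
      calc kmx δ f (e : E (d + 1)) ^ (k + 2) ≤ ENNReal.ofReal (2 ^ j1 * φ) ^ (k + 2) := by gcongr
        _ = _ := by
            rw [← ENNReal.ofReal_pow (by positivity), mul_pow (2 ^ j1) φ, hφP,
              ENNReal.ofReal_mul (by positivity), hPe]
  have hgint : ∫⁻ e, g e ∂σ = Φ * σ univ + ∑ j ∈ Finset.range J,
      ENNReal.ofReal ((2 ^ (j + 1)) ^ (k + 2)) * Φ * σ (s j) := by
    rw [hg, lintegral_add_left measurable_const, lintegral_const, lintegral_finsetSum _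
      fun j _ => measurable_const.indicator (measurableSet_toMeasurable _ _)]
    congr 1
    refine Finset.sum_congr rfl fun j _ => ?_
    rw [lintegral_indicator_const (measurableSet_toMeasurable _ _), measure_toMeasurable]
  refine (lintegral_mono hpt).trans ?_
  rw [hgint]
  have hlev : ∀ j ∈ Finset.range J, ENNReal.ofReal ((2 ^ (j + 1)) ^ (k + 2)) * Φ * σ (s j) ≤
      ENNReal.ofReal (2 ^ (k + 2) * (m0 * (C * A₀ * δ ^ (-(ε / 2))))) * Φ := by
    intro j _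
    calc ENNReal.ofReal ((2 ^ (j + 1)) ^ (k + 2)) * Φ * σ (s j)
        = ENNReal.ofReal (2 ^ (k + 2)) * (σ (s j) * ENNReal.ofReal ((2 ^ j) ^ (k + 2))) * Φ := by
          have : ((2 : ℝ) ^ (j + 1)) ^ (k + 2) = 2 ^ (k + 2) * (2 ^ j) ^ (k + 2) := by
            rw [← mul_pow]
            congr 1
            ring
          rw [this, ENNReal.ofReal_mul (by positivity)]
          ring
      _ ≤ ENNReal.ofReal (2 ^ (k + 2)) * ENNReal.ofReal (m0 * (C * A₀ * δ ^ (-(ε / 2)))) * Φ := by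
          gcongr
          exact hsm j
      _ = _ := by rw [← ENNReal.ofReal_mul (by positivity)]
  have hJlog : (J : ℝ) ≤ (Cη * X0 ^ η) * δ ^ (-(ε / 2)) := by
    have h1 : (2 : ℝ) ^ J ≤ X0 * (1 / δ) ^ d := by
      rw [hJ, pow_succ, hX0]
      linarith
    have h2 := hlog J (X0 * (1 / δ) ^ d) (by positivity) h1
    refine h2.trans (le_of_eq ?_)
    rw [Real.mul_rpow hX00.le (by positivity), ← Real.rpow_natCast (1 / δ) d,
      ← Real.rpow_mul (by positivity), one_div, Real.inv_rpow hδ.le, ← Real.rpow_neg hδ.le,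
      mul_assoc]
    congr 3
    rw [hη]
    field_simp
  have hexp : δ ^ (-(ε / 2)) * δ ^ (-(ε / 2)) = δ ^ (-ε) := by
    rw [← Real.rpow_add hδ]
    congr 1
    ring
  have hbr : 0 ≤ 2 ^ (k + 2) * (m0 * (C * A₀ * δ ^ (-(ε / 2)))) := by positivity
  have hJbr : 0 ≤ (J : ℝ) * (2 ^ (k + 2) * (m0 * (C * A₀ * δ ^ (-(ε / 2))))) :=
    mul_nonneg (Nat.cast_nonneg _) hbr
  calc Φ * σ univ + ∑ j ∈ Finset.range J, ENNReal.ofReal ((2 ^ (j + 1)) ^ (k + 2)) * Φ * σ (s j)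
      ≤ Φ * σ univ + ∑ _j ∈ Finset.range J,
        ENNReal.ofReal (2 ^ (k + 2) * (m0 * (C * A₀ * δ ^ (-(ε / 2))))) * Φ :=
        add_le_add le_rfl (Finset.sum_le_sum hlev)
    _ = ENNReal.ofReal ((σ univ).toReal + J * (2 ^ (k + 2) * (m0 * (C * A₀ * δ ^ (-(ε / 2)))))) *
          Φ := by
        rw [Finset.sum_const, Finset.card_range, nsmul_eq_mul,
          ENNReal.ofReal_add ENNReal.toReal_nonneg hJbr, ENNReal.ofReal_toReal hσfin,
          ENNReal.ofReal_mul (Nat.cast_nonneg J), ENNReal.ofReal_natCast]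
        ring
    _ ≤ _ := by
        refine mul_le_mul' (ENNReal.ofReal_le_ofReal ?_) le_rfl
        have hσ0 : 0 ≤ (σ univ).toReal := ENNReal.toReal_nonneg
        have hAδ : 1 ≤ A₀ * δ ^ (-ε) := one_le_mul_of_one_le_of_one_le hA₀ hδε
        have hδ2 : 0 ≤ δ ^ (-(ε / 2)) := by positivity
        calc (σ univ).toReal + J * (2 ^ (k + 2) * (m0 * (C * A₀ * δ ^ (-(ε / 2)))))
            ≤ (σ univ).toReal * (A₀ * δ ^ (-ε)) + ((Cη * X0 ^ η) * δ ^ (-(ε / 2))) *
              (2 ^ (k + 2) * (m0 * (C * A₀ * δ ^ (-(ε / 2))))) := by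
              refine add_le_add ?_ ?_
              · exact le_mul_of_one_le_right hσ0 hAδ
              · exact mul_le_mul_of_nonneg_right hJlog hbr
          _ = (σ univ).toReal * (A₀ * δ ^ (-ε)) + ((Cη * X0 ^ η)) *
              (2 ^ (k + 2) * m0 * C) * A₀ * (δ ^ (-(ε / 2)) * δ ^ (-(ε / 2))) := by ring
          _ = D * (A₀ * δ ^ (-ε)) := by
              rw [hexp, hD]
              ring
          _ ≤ (1 + D) * (A₀ * δ ^ (-ε)) := by
              gcongr
              linarith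
          _ = _ := by ring

/-- The case of dimension `3 / 2` in `ℝ³`. -/
theorem strong32 {ε : ℝ} (hε : 0 < ε) : ∃ C : ℝ, 1 ≤ C ∧ ∀ (δ : ℝ), 0 < δ → δ < 1 →
    ∀ (F : Set (E 3)), MeasurableSet F → ∀ (A₀ : ℝ), 1 ≤ A₀ →
    (∀ (x : E 3) (r : ℝ), δ ≤ r → r ≤ 32 →
      volume (F ∩ closedBall x r) ≤ ENNReal.ofReal (A₀ * (δ * √δ) * (r * √r))) →
    ∀ (f : E 3 → ℝ≥0∞), AEMeasurable f volume → (∀ x, x ∉ F → f x = 0) →
    ∫⁻ e : sphere (0 : E 3) 1, kmx δ f (e : E 3) ^ 3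
        ∂((volume : Measure (E 3)).toSphere) ≤
      ENNReal.ofReal (C * A₀ * δ ^ (-ε)) * ∫⁻ x, f x ^ 3 :=
  strongg (n := 3) (k := 1) (Gr := fun δ F A₀ => ∀ (x : E 3) (r : ℝ), δ ≤ r → r ≤ 32 →
      volume (F ∩ closedBall x r) ≤ ENNReal.ofReal (A₀ * (δ * √δ) * (r * √r))) le_rfl
    (fun h => level4 h) hε

end Pool.Agent.H74.TE
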